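import Pool.Agent.T6.H36.GV4

/-!
# The conjectures of Tate and of semisimplicity for all powers of varieties over finite fields whose
Frobenius polynomial modulo `l` has binary factors

Let `X` be a smooth projective variety of dimension `d` over the field with `q` elements, such that all
of its cohomology is algebraic, with the exception of a part `V` of the middle cohomology `H^d` (for
example a complete intersection of dimension `d`, a surface with first Betti number zero, or a
Calabi-Yau threefold with first Betti number zero and algebraic `H^2` and `H^4`). Let `P` be the
characteristic polynomial of the Frobenius on `V`; it has integral coefficients. Let `l` be a prime
number that does not divide `q`, and suppose that modulo `l` the polynomial `P` is a product of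
irreducible polynomials whose degrees are different powers `2 ^ (k + 1)` of two (`HasBinaryFactors`;
for every even degree this is the case for a positive proportion of the polynomials modulo `l`, by the
binary expansion of the degree), and that no root of `P` is the product of `q ^ (d / 2)` with a root of
unity. Then **for all powers `X ^ n` and all `m` the Tate conjecture is true and the eigenvalue one is
semisimple**: every class `f` of degree `2 m` on `X ^ n` that is annihilated by a power of
`F ^ N - q ^ (m N)`, `F` the Frobenius, for some `N ≥ 1` (that is, `f` is in the generalized eigenspace of
the eigenvalue one of the Frobenius over the field with `q ^ N` elements) is a combination of classes of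
algebraic cycles of codimension `m` on `X ^ n`. There is no condition on the Newton polygon, on the
degree `d` or on a lift of `X` to characteristic zero.

The total homology `W` of `X` (with coefficients extended to an algebraically closed field `Ω`, for
example an algebraic closure of `ℚ_ℓ`) is the direct sum of `V = H none` and of the algebraic parts
`H (some m)`, in degree `2 m`; by Künneth the cohomology of `X ^ n` consists of the multilinear forms on
`W ^ n`. The properties of algebraic cycles which are used (`IsVariety`): the Frobenius acts on classes
of cycles by the power of `q`; pullback by the Frobenius morphism of one factor; exterior products and
permutations of the factors; the class of the diagonal is nondegenerate.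

The idea of the proof. The roots of `P` modulo `l` are simple, so the Frobenius automorphism of the Witt
vectors permutes the roots `α` of `P` with cycles of the different lengths `2 ^ (k + 1)`, and the
multiplicative relations between the numbers `α / ᾱ` are a representation of this cyclic group; the
cycles contribute irreducible representations over `ℚ` which are not isomorphic. If there is a
nontrivial relation then all numbers `α / ᾱ` of one of the cycles are roots of unity, but this is
excluded. So there are no relations (`BN.main`), and a product of eigenclasses which is a Tate class is
up to the order a product of algebraic classes of `X` and of classes on `X × X` that are products of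
eigenclasses in `V` for `α` and `ᾱ` (`GV.mon_mem`). The latter are combinations of the graphs of the powers of
the Frobenius (`GV.pair_mem`), since the eigenvalues in `V` are simple and different from those in the
algebraic part.
-/

set_option autoImplicit false

namespace Pool.Agent.Results.MP_81632f_ag.BinaryVarieties

open Pool.Agent.T6.H36.GV Pool.Agent.T6.H36.BN

/-- **The Tate conjecture and the semisimplicity of the eigenvalue one for all powers of varieties over
finite fields whose Frobenius polynomial modulo `l` is a product of irreducible polynomials of different
degrees `2 ^ (k + 1)`.** -/
theorem result {Ω W : Type} [Field Ω] [IsAlgClosed Ω] [CharZero Ω] [AddCommGroup W] [Module Ω W]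
    [FiniteDimensional Ω W] {q d l : ℕ} [Fact l.Prime] (hl : ¬ l ∣ q) {φ : Module.End Ω W}
    {H : Parts Ω W d} {Cyc : Classes Ω W} (hX : IsVariety q d φ H Cyc) {P : Polynomial ℤ}
    (hP : IsFrobeniusPolynomial φ (H none) P)
    (hbin : HasBinaryFactors (P.map (Int.castRingHom (ZMod l))))
    (hns : NoSupersingularRoot Ω P (q ^ d)) (n m : ℕ) (f : Form Ω W n)
    (hf : IsGeneralizedTateClass q φ H m f) : f ∈ Cyc n m :=
  tate hX hl hP hbin hns f hf

end Pool.Agent.Results.MP_81632f_ag.BinaryVarieties
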