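import Pool.Agent.T6.H36.Red2

/-!
# The conjectures of Beilinson and Tate for all varieties over finite fields generated by the curves
`y ^ 2 = f(x)` with irreducible `f` of prime degree

Let `n = 2 w h + 1` be a prime number, `h` an odd prime number, `w = 1` or `w = 2`, with `n ≡ 3` or `5`
modulo `8`: for instance `n = 11, 13, 29, 53, 59, 83, 107, 149, 173, ...` (`IsGoodPrime`). Let `q = p ^ a`,
where `a` is odd and `p` is an odd prime number that is not congruent to `n` modulo `8`.

Let `Z` be the Jacobian variety of a curve `y ^ 2 = f(x)` over the field with `q` elements, where `f` is
any **irreducible** polynomial of degree `n`; or more generally let `Z` be any abelian variety of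
dimension `g = (n - 1) / 2` over this field whose Frobenius endomorphism has **order `n = 2 g + 1` on the
points of order two** of `Z`. The Newton polygon of `Z` and the number field of the Frobenius eigenvalues
are arbitrary. (An abelian variety over a finite field is modelled by `RedAV`: by Honda and Tate it is
given, up to isogeny over an algebraic closure, by CM types `(E i, Φ i)` and Weil numbers `π i ∈ E i`
with the formula of Shimura and Taniyama; `eig Z` are its Frobenius eigenvalues.)

`IsPrimeType Y` says that the abelian variety `Y` is isogenous, over an algebraic closure, to
`Z ^ r × S` with such a variety `Z` and a supersingular abelian variety `S`. `Homology Ω V` are data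
of motivic homology `M X i j = H_i^M(X, ℚ(j)) = CH_j(X, i - 2 j) ⊗ ℚ` and of `ℓ`-adic homology
`E X i j = H_i(X, ℚ_ℓ(j))` (coefficients extended to `Ω`) of schemes `X` of finite type over a finite
field (the elements of `V`), with the Frobenius and the regulator. Let `𝒢` (`Generated`) be the smallest
class of schemes that contains those with the homology groups of abelian varieties of prime type, that
is closed under direct summands of finite sums of twists of motives, and that contains all of a closed
subscheme `Z` of `X`, `X` and `X ∖ Z` if it contains two of them: for instance all powers and symmetric
powers of the curves `y ^ 2 = f(x)` above and of their open subsets, and singular and open varieties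
with a stratification by such varieties. Let `𝒮` (`Spread`) be the smallest class that contains `𝒢`, all
open subschemes (with arbitrary complement) and all images under proper morphisms of its members, the
schemes that are the union of a closed and an open member, and the schemes whose motives are direct
summands of sums of twists of motives of members: for example all varieties dominated by powers of
these curves, and their open subvarieties.

The theorem:

* (Q1 and Q2) for all `X` in `𝒢` and all `i` the cycle class map is **bijective** (it induces an
  isomorphism of `CH_i(X) ⊗ Ω` with the space of the invariant elements of `H_(2 i)(X, ℚ_ℓ(i))`) and the
  eigenvalue one of the Frobenius is semisimple (`IsIso T X i`);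
* (Q2, and the surjectivity in Q1) for all `X` in `𝒮` and all `i` the invariant elements are spanned by
  the classes of cycles of dimension `i` and the eigenvalue one is semisimple (`IsOnto T X i`).

For smooth `X` of dimension `e` the group `H_(2 i)(X, ℚ_ℓ(i))` is `H^(2 (e - i))(X, ℚ_ℓ(e - i))`.

Properties of the theory of cycles that are used for the abelian varieties (`IsChow`, `IsMotivic`):
Poincaré duality, the formal properties of correspondences, the nilpotence of homologically trivial
correspondences (Kimura), the operation of the Frobenius endomorphism on higher Chow groups, the
vanishing of the higher rational `K`-groups of a finite field (Quillen), and the algebraicity of the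
classes in `Alg` (of which only products of classes of divisors matter here, theorem of Tate). The passage
from the Tate conjecture for the abelian varieties to all degrees and to the classes `𝒢` and `𝒮` is in the
starting files.

What is new is the theorem on the Frobenius eigenvalues of `Z`: **all multiplicative relations between
them, up to roots of unity, are generated by relations between two of them.** The idea of the proof: the
number `2` is a primitive root modulo `n`, and the characteristic polynomial of the Frobenius
endomorphism is congruent to `1 + X + ... + X ^ (n - 1)` modulo two. So its roots are congruent to the
primitive `n`-th roots of unity in the ring of Witt vectors of a finite field of characteristic two, and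
the Frobenius automorphism of the Witt vectors permutes them cyclically. The relations form a
representation of a cyclic group of order `2 w h` with two odd components over `ℚ`. If the large component
belongs to the relations, then `Z` is, over the extension of degree `n`, isogenous to a power of an
elliptic curve or an abelian surface, and there are enough relations between two eigenvalues. If only
the small one does, then a product of eigenvalues is a square root of `± q ^ h`; this is excluded by
the unramified extensions of `ℚ₂` and the action of the Galois group. The same argument excludes
supersingular `Z`.
-/

set_option autoImplicit false

namespace Pool.Agent.Results.MP_81632f_ag.IrreducibleHyperelliptic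

open Pool.Agent.W495.TA Pool.Agent.W495.FM Pool.Agent.T6.H36.Red

/-- **The conjectures of Beilinson and Tate for all varieties over finite fields generated by the
curves `y ^ 2 = f(x)` with irreducible `f` of good prime degree.** -/
theorem result (p : ℕ) [Fact p.Prime] (ν : PadicAlgCl p ≃+* ℂ) (Ω : Type) [Field Ω]
    [IsAlgClosed Ω] [CharZero Ω] (V : Type) (T : Homology Ω V) (hT : IsHomology T)
    (hW : HasWeights T) :
    (∀ X : V, Generated T (IsPrimeTypeAbelian p ν T) X → ∀ i : ℤ, IsIso T X i) ∧
      ∀ X : V, Spread T (Generated T (IsPrimeTypeAbelian p ν T)) X → ∀ i : ℤ, IsOnto T X i :=
  ⟨fun _ hX i => (tb hT hX).iso hT i, fun _ hX i => onto hT hW hX i⟩

end Pool.Agent.Results.MP_81632f_ag.IrreducibleHyperelliptic
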