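import Pool.Agent.T6.H22.DI.Main

/-!
# The conjectures of Beilinson and Tate for all varieties over finite fields generated by towers of
abelian varieties with isolated residue degrees

Let `Z₁` be a simple abelian variety over a finite field, of any dimension `g`, with complex
multiplication by a CM field `E` of degree `2 g`. Suppose that there are a prime number `ℓ` that is
unramified in `E` and some `k` such that exactly one prime ideal of `E` over `ℓ` has a residue degree
divisible by `2 ^ (k + 1)`, and this residue degree is `2 ^ (k + 1)` (`IsIsolated ℓ k E`). For instance
(`k = 0`) exactly one of the residue degrees of `ℓ` is even, and this one is two; or `ℓ` is inert in `E`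
and `g` is a power of two. By the theorem of Chebotarev every CM field of degree `2 g` whose Galois group is as
large as possible (the wreath product of the group of order two and the symmetric group of degree
`g`) has this property, for every `g`. There is no condition on the Newton polygon of `Z₁`. Let `Z₂` be an
abelian variety with complex multiplication by CM fields `F j` such that, for all `j`, the degree of
`F j` is smaller than `2 ^ (k + 1)`, or `ℓ` is unramified in `F j` and `2 ^ (k + 1)` does not divide any
residue degree of `ℓ` in `F j` (`IsThin`): this is a condition on single factors only, their number,
dimensions and Newton polygons are arbitrary. The main theorem says that all multiplicative relations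
between the Frobenius eigenvalues of `Z₁ × Z₂` come from `Z₂`: if the product of powers of these numbers
is a root of unity, up to a power of `√q`, then the exponents of `α` and of the complex conjugate `ᾱ`
are equal for all eigenvalues `α` of `Z₁`, or `Z₁` is supersingular (`DI.dichotomy`,
`DI.elementary_insert`).

(An abelian variety over a finite field is modelled by `RedAV`: by Honda and Tate it is given, up to
isogeny over an algebraic closure, by CM types `(E i, Φ i)` and Weil numbers `π i ∈ E i` with the formula
of Shimura and Taniyama; `eig Z` are its Frobenius eigenvalues.)

A tower (`IsIsolatedTowerOf`) is obtained from a set of factors of dimension at most three whose CM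
fields have pairwise different Galois closures, unless they are Galois over `ℚ` (for instance any number
of elliptic curves, or no factor), by adding successively factors `Z₁` as above over the product `Z₂`
of the previous ones, with various prime numbers `ℓ`. For example, by the theorem of Chebotarev, all
products of abelian varieties of **arbitrary dimensions** whose CM fields have Galois groups as large as
possible and linearly disjoint Galois closures are towers. `IsIsolatedTowerAbelian` says that the groups of
motivic and of `ℓ`-adic homology of a scheme are those of an abelian variety that is isogenous, over an
algebraic closure, to a product of powers of the factors of a tower and of a supersingular abelian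
variety.

`Homology Ω V` are data of motivic homology `M X i j = H_i^M(X, ℚ(j)) = CH_j(X, i - 2 j) ⊗ ℚ` and of
`ℓ`-adic homology `E X i j = H_i(X, ℚ_ℓ(j))` (coefficients extended to `Ω`) of schemes `X` of finite type
over a finite field (the elements of `V`), with the Frobenius and the regulator. Let `𝒢` (`Generated`) be
the smallest class of schemes that contains those with the homology groups of abelian varieties of this
type, that is closed under direct summands of finite sums of twists of motives, and that contains all
of a closed subscheme `Z` of `X`, `X` and `X ∖ Z` if it contains two of them. Let `𝒮` (`Spread`) be the
smallest class that contains `𝒢`, all open subschemes (with arbitrary complement) and all images under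
proper morphisms of its members, the schemes that are the union of a closed and an open member, and the
schemes whose motives are direct summands of sums of twists of motives of members. The theorem:

* (Q1 and Q2) for all `X` in `𝒢` and all `i` the cycle class map is **bijective** (it induces an
  isomorphism of `CH_i(X) ⊗ Ω` with the space of the invariant elements of `H_(2 i)(X, ℚ_ℓ(i))`) and the
  eigenvalue one of the Frobenius is semisimple (`IsIso T X i`);
* (Q2, and the surjectivity in Q1) for all `X` in `𝒮` and all `i` the invariant elements are spanned by
  the classes of cycles of dimension `i` and the eigenvalue one is semisimple (`IsOnto T X i`).

Properties of the theory of cycles that are used for the abelian varieties (`IsChow`, `IsMotivic`):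
Poincaré duality, the formal properties of correspondences, the nilpotence of homologically trivial
correspondences (Kimura), the operation of the Frobenius endomorphism on higher Chow groups, the
vanishing of the higher rational `K`-groups of a finite field (Quillen), and the algebraicity of the
classes in `Alg`. The passage from the relations between the eigenvalues to the Tate conjecture for the
abelian varieties, to all degrees and to the classes `𝒢` and `𝒮` is in the starting files.

The idea of the proof of the theorem on the eigenvalues. Some automorphism `σ` of `ℂ` induces a
Frobenius automorphism at a place above `ℓ`. The embeddings of `E` that belong to the isolated prime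
ideal form one cycle `O` of length `2 ^ (k + 1)` of `σ`, stable under the complex conjugation, which is
`σ ^ (2 ^ k)` there; and for a suitable odd number `M` the automorphism `σ ^ (2 ^ k M)` is trivial on
all other embeddings of `E` and of the fields `F j` (`DI.exists_sigma`). So the part of a relation on `O`
is a relation. The relations on `O` are a module over `ℤ[x] / (x ^ (2 ^ k) + 1)` where `x` operates as `σ`,
and the ideal generated by a nonzero element of this ring, the ring of the integers of a cyclotomic
field, contains a nonzero integer. So the exponents of the relation are symmetric on `O`, or the numbers
`α / ᾱ` are roots of unity; and all this holds also for all conjugates of the relation.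
-/

set_option autoImplicit false

namespace Pool.Agent.Results.MP_81632f_ag.IsolatedResidueDegrees

open Pool.Agent.W495.TA Pool.Agent.W495.FM Pool.Agent.T6.H22.DI

/-- **The conjectures of Beilinson and Tate for all varieties over finite fields generated by towers
of abelian varieties with isolated residue degrees.** -/
theorem result (p : ℕ) [Fact p.Prime] (ν : PadicAlgCl p ≃+* ℂ) (Ω : Type) [Field Ω]
    [IsAlgClosed Ω] [CharZero Ω] (V : Type) (T : Homology Ω V) (hT : IsHomology T)
    (hW : HasWeights T) :
    (∀ X : V, Generated T (IsIsolatedTowerAbelian p ν T) X → ∀ i : ℤ, IsIso T X i) ∧
      ∀ X : V, Spread T (Generated T (IsIsolatedTowerAbelian p ν T)) X → ∀ i : ℤ, IsOnto T X i :=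
  ⟨fun _ hX i => (tb hT hX).iso hT i, fun _ hX i => onto hT hW hX i⟩

end Pool.Agent.Results.MP_81632f_ag.IsolatedResidueDegrees
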