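import Pool.Agent.T6.H36.RT

/-!
# The conjectures of Beilinson and Tate for all varieties over finite fields generated by towers of
abelian varieties with Frobenius eigenvalues of large orders modulo `l`

Let `Z₁` be an abelian variety over the field with `q` elements, of dimension `2 ^ k`. Suppose that for
some prime number `l` the order of the Frobenius endomorphism of `Z₁` on the group of the points of order
`l` is divisible by a prime number `r > 2 ^ (k + 1) + 1`, modulo which the order of `l` is `2 ^ (k + 1)`:
for example (`k = 2`, `l = 2`) a four-dimensional abelian variety such that `17` divides the order of
Frobenius on the points of order two. The Newton polygon of `Z₁` and the field of the Frobenius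
eigenvalues are arbitrary. Let `Z₂` be **any** abelian variety of dimension smaller than `2 ^ k`. The
main theorem says that all multiplicative relations between the Frobenius eigenvalues of `Z₁ × Z₂` come
from `Z₂`: if the product of powers of these numbers is a root of unity, up to a power of `√q`, then
the exponents of `α` and of the complex conjugate `ᾱ` are equal for all eigenvalues `α` of `Z₁`
(`RT.symm_of_large`). So `Z₁ ^ a × Z₂ ^ b` satisfies the Tate conjecture for all `a` and `b` if `Z₂` is of
dimension at most three, or is a product of elliptic curves (of dimension smaller than `2 ^ k`).

More generally (`HasLargeOrdersAbove`) let `Z₁` be of arbitrary dimension such that the Frobenius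
eigenvalues on the points of order `l` are `x i ^ (l ^ j)`, `j < 2 m i`, with nonzero `x i` in the field with
`l ^ (2 m i)` elements, where the exponents `v i` of two in the numbers `m i` are different, and for all
divisors `d` of `2 m i` that do not divide `m i` (only `d = 2 m i` if `m i` is a power of two) the order of
`x i` is divisible by a prime number `r > 2 dim Z₁ + 1` modulo which the order of `l` is `d`; and let
`dim Z₂ < 2 ^ (v i)` for all `i`. (An abelian variety over a finite field is modelled by `RedAV`: by
Honda and Tate it is given, up to isogeny over an algebraic closure, by CM types `(E i, Φ i)` and Weil
numbers `π i ∈ E i` with the formula of Shimura and Taniyama; `eig Z` are its Frobenius eigenvalues;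
`Z₁` and `Z₂` are the products of the factors in two disjoint sets `S` and `T`; `IsLargeOver Z S T`.)

A tower (`IsTower`) is obtained from a set of factors of total dimension at most three, or a set of
factors of dimension at most three whose CM fields are Galois over `ℚ` (for instance elliptic curves), by
adding successively sets of factors that are large over the product of the previous ones, with respect to
various prime numbers `l`. `IsTowerType Y` says that the abelian variety `Y` is isogenous, over an
algebraic closure, to a product of powers of the factors of a tower and of a supersingular abelian
variety.

`Homology Ω V` are data of motivic homology `M X i j = H_i^M(X, ℚ(j)) = CH_j(X, i - 2 j) ⊗ ℚ` and of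
`ℓ`-adic homology `E X i j = H_i(X, ℚ_ℓ(j))` (coefficients extended to `Ω`) of schemes `X` of finite type
over a finite field (the elements of `V`), with the Frobenius and the regulator. Let `𝒢` (`Generated`) be
the smallest class of schemes that contains those with the homology groups of abelian varieties of tower
type, that is closed under direct summands of finite sums of twists of motives, and that contains all
of a closed subscheme `Z` of `X`, `X` and `X ∖ Z` if it contains two of them. Let `𝒮` (`Spread`) be the
smallest class that contains `𝒢`, all open subschemes (with arbitrary complement) and all images under
proper morphisms of its members, the schemes that are the union of a closed and an open member, and the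
schemes whose motives are direct summands of sums of twists of motives of members. The theorem:

* (Q1 and Q2) for all `X` in `𝒢` and all `i` the cycle class map is **bijective** (it induces an
  isomorphism of `CH_i(X) ⊗ Ω` with the space of the invariant elements of `H_(2 i)(X, ℚ_ℓ(i))`) and the
  eigenvalue one of the Frobenius is semisimple (`IsIso T X i`);
* (Q2, and the surjectivity in Q1) for all `X` in `𝒮` and all `i` the invariant elements are spanned by
  the classes of cycles of dimension `i` and the eigenvalue one is semisimple (`IsOnto T X i`).

Properties of the theory of cycles that are used for the abelian varieties (`IsChow`, `IsMotivic`):
Poincaré duality, the formal properties of correspondences, the nilpotence of homologically trivial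
correspondences (Kimura), the operation of the Frobenius endomorphism on higher Chow groups, the
vanishing of the higher rational `K`-groups of a finite field (Quillen), and the algebraicity of the
classes in `Alg`. The passage from the relations between the eigenvalues to the Tate conjecture for the
abelian varieties, to all degrees and to the classes `𝒢` and `𝒮` is in the starting files.

The idea of the proof of the theorem on the eigenvalues. The eigenvalues of `Z₁` are in the ring of
the Witt vectors of the algebraic closure of the field with `l` elements, whose Frobenius automorphism
permutes them in cycles of the lengths `2 m i`. It extends to an automorphism of the field of all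
eigenvalues of `Z₁ × Z₂`; its cycles on the eigenvalues of `Z₂` have at most `2 dim Z₂ < 2 ^ (v i + 1)`
elements. So the representations of this cyclic group on the relations, for the different cycles of `Z₁`
and for `Z₂`, have no common irreducible components, and a relation is a product of relations of
these parts. A relation in a cycle of `Z₁` gives a whole irreducible component of relations, with a
character of order `d`. The roots of unity that are products of eigenvalues of `Z₁` have orders prime to
`r`, by the action of the Galois group of the field of the eigenvalues (`Ord.order_prime`), but a
computation modulo `l` and `r` shows that some of those in the component have orders divisible by `r`.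
-/

set_option autoImplicit false

namespace Pool.Agent.Results.MP_81632f_ag.LargeOrderTowers

open Pool.Agent.W495.TA Pool.Agent.W495.FM Pool.Agent.T6.H36.RT

/-- **The conjectures of Beilinson and Tate for all varieties over finite fields generated by towers
of abelian varieties with Frobenius eigenvalues of large orders.** -/
theorem result (p : ℕ) [Fact p.Prime] (ν : PadicAlgCl p ≃+* ℂ) (Ω : Type) [Field Ω]
    [IsAlgClosed Ω] [CharZero Ω] (V : Type) (T : Homology Ω V) (hT : IsHomology T)
    (hW : HasWeights T) :
    (∀ X : V, Generated T (IsTowerTypeAbelian p ν T) X → ∀ i : ℤ, IsIso T X i) ∧
      ∀ X : V, Spread T (Generated T (IsTowerTypeAbelian p ν T)) X → ∀ i : ℤ, IsOnto T X i :=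
  ⟨fun _ hX i => (tb hT hX).iso hT i, fun _ hX i => onto hT hW hX i⟩

end Pool.Agent.Results.MP_81632f_ag.LargeOrderTowers
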